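import Pool.Agent.U181.TG.BassM

/-!
# The Bass trace conjecture over all domains is a statement on one two-generator group and prime fields

Let `C` be a class of groups closed under subgroups, direct products and unrestricted wreath products
with the infinite cyclic group, for example the class of all groups or of the torsion-free groups. There
is a group `Γ` in `C` with two generators such that the Bass trace conjecture for all groups in `C` and
all commutative domains is equivalent to its weak form for `Γ` over the finite fields, and over the prime
fields `ℤ/p` if `C` contains the finite cyclic groups. The weak form concerns only the elements `g` of
infinite order which are conjugate to some `g ^ (p ^ j)`, `j ≥ 1`.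

Proof in outline. A bad idempotent matrix over a domain of characteristic zero gives one over a field of
characteristic `p` for almost all primes `p`, and a maximal ideal of the ring generated by the coefficients
which does not contain the rank leads to a finite field `F`. The product with the idempotent
`-∑ u, u⁻¹ [u]` of the group ring of `Fˣ` multiplies the rank by an arbitrary element of `Fˣ`, so some
trace to the prime field is not zero and the scalars can be restricted. The idempotent matrix lifts to the
largest quotient in `C` of a finitely presented group; the rank at `g` is the sum of the ranks at the
classes which map to the class of `g`, and one of these is not zero. All these quotients are direct factors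
of their restricted direct product, which is countable. It embeds in a two-generator subgroup of an iterated
wreath product (B. H. Neumann and H. Neumann), and elements which become conjugate there were conjugate
before, so that the rank does not change.
-/

set_option autoImplicit false

namespace Pool.Agent.Results.MP_7903c7_al.TestGroups

open Pool.Agent.U181.TG

/-- The classes of all groups and of all torsion-free groups are closed under subgroups, direct products
and unrestricted wreath products with the infinite cyclic group. For every class `C` with these closure
properties there is a group `Γ` in `C`, generated by two elements, whose weak Bass trace conjecture over
the finite fields tests the Bass trace conjecture for `C` and all domains (see `Tests`). If `C` contains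
the finite cyclic groups, then the weak Bass trace conjecture for `Γ` over the fields `ℤ/p` suffices. -/
theorem result :
    ClosedSPW (fun _ _ => True) ∧ ClosedSPW (fun G _ => TorsionFree G) ∧
      ∀ C : ∀ (G : Type) [Group G], Prop, ClosedSPW C →
        ∃ (Γ : Type) (_ : Group Γ) (a b : Γ), C Γ ∧ Subgroup.closure {a, b} = ⊤ ∧
          Tests C (fun p => WeakFin p Γ) ∧
          ((∀ n : ℕ, 0 < n → C (Multiplicative (ZMod n))) →
            Tests C (fun p => WeakBass p (ZMod p) Γ)) :=
  ⟨closedSPW_true, closedSPW_torsionFree, fun _ hC => main_tests hC⟩

end Pool.Agent.Results.MP_7903c7_al.TestGroups
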