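import Pool.Agent.U181.TG.Fin

/-!
# Test groups and a compactness principle for the Whitehead groups of torsion-free groups

The vanishing of the Whitehead groups of all torsion-free groups is equivalent to its vanishing for one
countable torsion-free group, and to a finitary statement about groups without small torsion. The
equivalence with the finitary statement holds for the limits of any class of groups, for example of the
finite groups.

Sources: the idea of replacing a statement about all groups by a compactness argument in the space of
marked groups is standard; no paper is used.
-/

set_option autoImplicit false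

namespace Pool.Agent.Results.MP_8f66f0_al.TestGroups

open Pool.Agent.U181.TG

/-- (1) The following are equivalent: the Whitehead group of every torsion-free group is zero; the
Whitehead group of the largest torsion-free quotient of every finitely presented group is zero; the
Whitehead group of the restricted direct product `TestGroup` of these quotients, which is a countable
torsion-free group, is zero; for every pair of square matrices `A`, `B` over the group ring of a free
group of finite rank there are finitely many derivations and a number `N` such that one of the
derivations proves that the image of `A` is zero in the Whitehead group of `G`, whenever `G` is a group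
without elements of order `2, ..., N` (but perhaps with elements of larger finite order) and a
homomorphism to `G` makes the images of `A` and `B` inverse to each other.
(2) For every class `C` of groups, the Whitehead groups of all limits of groups in `C` without small
torsion are zero exactly if this finitary statement holds for the groups `G` in `C`; these limits are
torsion-free.
(3) For the class of finite groups the limits contain all groups which are residually finite
`p`-groups for infinitely many primes `p`. -/
theorem result :
    ((Countable TestGroup ∧ TorsionFree TestGroup) ∧
      List.TFAE
        [∀ (Γ : Type) [Group Γ], TorsionFree Γ → WhZero Γ,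
          ∀ (r : ℕ) (S : Finset (FreeGroup (Fin r))), WhZero (TFQuotient r S),
          WhZero TestGroup,
          Finitary fun _ _ => True]) ∧
    (∀ C : ∀ (G : Type) [Group G], Prop,
      ((∀ (Γ : Type) [Group Γ], IsLimit C Γ → WhZero Γ) ↔ Finitary C) ∧
        ∀ (Γ : Type) [Group Γ], IsLimit C Γ → TorsionFree Γ) ∧
    (∀ (Γ : Type) [Group Γ],
      (∀ N : ℕ, ∃ p : ℕ, N < p ∧ p.Prime ∧ ∀ g : Γ, g ≠ 1 →
        ∃ (Q : Type) (_ : Group Q), Finite Q ∧ IsPGroup p Q ∧ ∃ f : Γ →* Q, f g ≠ 1) →
      IsLimit (fun G _ => Finite G) Γ) := by
  refine ⟨⟨⟨countable_testGroup, torsionFree_testGroup⟩, ?_⟩, fun C =>
    ⟨(compactness C).symm, fun Γ _ h => torsionFree_of_isLimit C Γ h⟩,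
    fun Γ _ h => isLimit_finite Γ h⟩
  tfae_have 1 → 3 := fun h => h TestGroup torsionFree_testGroup
  tfae_have 3 → 2 := fun h r S => zero_of_testGroup h r S
  tfae_have 2 → 1 := fun h Γ _ hΓ => zero_of_tfQuotients h Γ hΓ
  tfae_have 1 ↔ 4 := by
    rw [compactness]
    exact ⟨fun h Γ _ hΓ => h Γ ((isLimit_all Γ).1 hΓ), fun h Γ _ hΓ => h Γ ((isLimit_all Γ).2 hΓ)⟩
  tfae_finish

end Pool.Agent.Results.MP_8f66f0_al.TestGroups
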